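import Pool.Agent.Helper31.MHS.Goals2

/-!
# Machines with several heads and descriptions of their tapes: the machines have codes
-/

namespace Pool.Agent.Helper32.MHS

open Pool.Agent.Helper31.MHS
open Pool.Agent.Helper65.LinSpace Pool.Agent.Helper78.Mpc Pool.Agent.Helper28.Ram Finset Filter
open Pool.Agent.Helper65.OH (kap)
open Pool.Agent.Helper28.Long (ZL)
open Pool.Agent.Helper65.RT (qT CT LSM Sim Par)
open Pool.Agent.Helper20.MH (MultiHead Prm Sys Conf ParM FnsM GoodM InBox cz PFM SLS STM_stmt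
  TRU_stmt LSS_stmt MLM_stmt)
open Pool.Agent.Helper81.Sus2 (Decomp CodE LSP)

theorem exists_code (v : ℕ → ℕ) (N : ℕ) : ∃ u, ∀ i < N, cfi u i = v i := by
  refine ⟨Nat.pair (∑ i ∈ range N, v i + 1) (tab (∑ i ∈ range N, v i + 1) N v), fun i hi => ?_⟩
  unfold cfi
  simp only [Nat.unpair_pair]
  refine dig_tab (fun j hj => ?_) hi
  have := single_le_sum (f := v) (fun _ _ => Nat.zero_le _) (mem_range.2 hj)
  omega

/-- The parameters are right. -/
theorem par_ready (hG : GUW_stmt) {D K : ℕ} (A : MultiHead D K) {eA eN eW eD eX c0 u T : ℕ}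
    {w y : List Bool}
    (hc : ∀ S ≤ ZL w.length, c0 * (S + 1) ≤ LW w.length ∧
      c0 * (S + 1) + LW w.length ≤ 2 ^ (2 * ll w.length) ∧ c0 * (8 * S + 8) ≤ LW w.length ∧
      c0 + LW w.length + 8 * S + 8 ≤ 2 ^ (2 * ll w.length) ∧
      ∀ x, Nat.log 2 x = w.length → 2 ^ (S + 2) ≤ CR x)
    (u0 : cfi u 0 = D) (u1 : cfi u 1 = K)
    (u2 : cfi u 2 = tab (K + 1) K fun i => if h : i < K then (A.tape ⟨i, h⟩ : ℕ) else 0)
    (u3 : cfi u 3 = eA) (u4 : cfi u 4 = eN) (u5 : cfi u 5 = eW) (u6 : cfi u 6 = num A.start)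
    (u7 : cfi u 7 = eD) (u8 : cfi u 8 = eX) (hg : gT u (num w) T ≠ 0) :
    ParM A eA eN eW c0 w y (PT u (num w) (num y) T).m ∧
      (PT u (num w) (num y) T).eD = eD ∧ (PT u (num w) (num y) T).eX = eX ∧
      c0 * (8 * (PT u (num w) (num y) T).Z + 8) ≤ (PT u (num w) (num y) T).m.Λ ∧
      c0 + (PT u (num w) (num y) T).m.Λ + 8 * (PT u (num w) (num y) T).Z + 8 ≤
        (PT u (num w) (num y) T).m.β ∧
      2 ^ ((PT u (num w) (num y) T).Z + 2) ≤ (PT u (num w) (num y) T).m.B := by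
  have hlog : Nat.log 2 (num w) = w.length := Pool.Agent.Helper65.LinSpace.log_num w
  have H := hG (cfi u 3) (cfi u 4) (cfi u 5) (cfi u 6) (num w) (num y) (cfi u 0) (cfi u 1)
    (cfi u 2) (dig (bsW (num w)) T 0) (dig (bsW (num w)) T 1) (dig (bsW (num w)) T 2)
    (dig (bsW (num w)) T 3) (dig (bsW (num w)) T 4) (dig (bsW (num w)) T 5)
    (dig (bsW (num w)) T 6) (dig (bsW (num w)) T 7) (cfi u 7) (cfi u 8)
  change GUW (num w) (cfi u 0) (cfi u 1) _ _ _ _ _ _ _ _ (gT u (num w) T)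
    (PT u (num w) (num y) T) at H
  obtain ⟨e0, e1, e2, e3, e4, e5, e6, e7, e8, e9⟩ := H.eq hg
  have hSZ := H.hSZ
  rw [hlog] at hSZ
  obtain ⟨s1, s2, s3, s4, s5⟩ := hc (PT u (num w) (num y) T).m.S (by omega)
  obtain ⟨z1, z2, z3, z4, z5⟩ := hc (PT u (num w) (num y) T).Z (by omega)
  have hΛ : (PT u (num w) (num y) T).m.Λ = LW w.length := by
    rw [← hlog]; rfl
  have hβ : (PT u (num w) (num y) T).m.β = 2 ^ (2 * ll w.length) := by
    rw [← hlog]; rfl
  have hB : (PT u (num w) (num y) T).m.B = CR (num w) := rfl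
  have hK : (PT u (num w) (num y) T).m.K = K := e1.trans u1
  refine ⟨?_, u7, u8, by rw [hΛ]; exact z3, by rw [hΛ, hβ]; exact z4,
    by rw [hB]; exact z5 _ hlog⟩
  exact
    { h_eA := u3
      h_eN := u4
      h_eW := u5
      h_st := u6
      h_x := rfl
      h_y := rfl
      h_D := e0.trans u0
      h_K := hK
      h_tp := by
        intro i
        show dig ((PT u (num w) (num y) T).m.K + 1) (cfi u 2) i = _
        rw [hK, u2, dig_tab (fun j hj => ?_) i.2, dif_pos i.2]
        rw [dif_pos hj]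
        exact lt_trans (A.tape ⟨j, hj⟩).2 (Nat.lt_succ_self K)
      pos_κ := H.pos.1
      h_Λ := by rw [hΛ]; exact s1
      h_β := by rw [hΛ, hβ]; exact s2
      h_B := by
        rw [hB]
        exact le_trans (Nat.pow_le_pow_right (by norm_num) (by omega)) (s5 _ hlog) }

theorem exg (hG : GUW_stmt) (hP : PRW_stmt) (hE : EVW_stmt) (hC : COD_stmt) (hF : FOK_stmt)
    (hR : RCH_stmt) : EXG_stmt := by
  intro Q c D K hD hK A E C
  obtain ⟨eA, eN, eW, eD, eX, c0, hcod⟩ := hC A E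
  obtain ⟨u, hu⟩ := exists_code (fun i => if i = 0 then D else if i = 1 then K else
    if i = 2 then tab (K + 1) K fun i => if h : i < K then (A.tape ⟨i, h⟩ : ℕ) else 0 else
    if i = 3 then eA else if i = 4 then eN else if i = 5 then eW else
    if i = 6 then num A.start else if i = 7 then eD else eX) 9
  obtain ⟨n₀, hn₀⟩ := eventually_atTop.1 (hE c0)
  obtain ⟨n₁, hn₁⟩ := eventually_atTop.1 (hP D K C hD hK)
  refine ⟨u, n₀ + n₁, fun w y hw => ?_⟩
  have hlog : Nat.log 2 (num w) = w.length := Pool.Agent.Helper65.LinSpace.log_num w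
  have hc := hn₀ w.length (by omega)
  have u0 : cfi u 0 = D := hu 0 (by omega)
  have u1 : cfi u 1 = K := hu 1 (by omega)
  have u2 : cfi u 2 = tab (K + 1) K fun i => if h : i < K then (A.tape ⟨i, h⟩ : ℕ) else 0 :=
    hu 2 (by omega)
  have hready : ∀ T, gT u (num w) T ≠ 0 →
      ParM A eA eN eW c0 w y (PT u (num w) (num y) T).m ∧
      FnsM A (PT u (num w) (num y) T).m ∧ CodE E (PT u (num w) (num y) T).e := by
    intro T hg
    obtain ⟨h1, h2, h3, h4, h5, h6⟩ := par_ready (y := y) hG A hc u0 u1 u2 (hu 3 (by omega))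
      (hu 4 (by omega)) (hu 5 (by omega)) (hu 6 (by omega)) (hu 7 (by omega))
      (hu 8 (by omega)) hg
    exact ⟨h1, hcod w y _ h1 h2 h3 h4 h5 h6⟩
  have hguw : ∀ T, GUW (num w) (cfi u 0) (cfi u 1) (dig (bsW (num w)) T 0)
      (dig (bsW (num w)) T 1) (dig (bsW (num w)) T 2)
      (dig (bsW (num w)) T 3) (dig (bsW (num w)) T 4) (dig (bsW (num w)) T 5)
      (dig (bsW (num w)) T 6) (dig (bsW (num w)) T 7) (gT u (num w) T)
      (PT u (num w) (num y) T) := fun T => hG _ _ _ _ _ _ _ _ _ _ _ _ _ _ _ _ _ _ _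
  have hfok : ∀ T, FOk (PT u (num w) (num y) T)
      (FF Q (Nat.log 2 (num w)) (PT u (num w) (num y) T)) := by
    intro T
    have H := hguw T
    exact hF Q _ _ H.pos.1 H.pos.2.1 H.pos.2.2.1 H.pos.2.2.2 H.hR H.hJ H.par
  constructor
  · intro T _ hT
    unfold accW at hT
    have hg := left_ne_zero_of_mul hT
    have hr := right_ne_zero_of_mul hT
    obtain ⟨h1, h2, h3⟩ := hready T hg
    have H := hguw T
    exact hR.snd A eA eN eW c0 w y _ _ _ hK h1 h2 H.pos.2.1 (hfok T) H.hN hr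
  · rintro ⟨t, s, b, a, r, hacc, hfit, hbox, hwin, b1, b2, b3⟩
    obtain ⟨c', R, E', G, d, hgw, hrd, ls, lb, lc, lR, lE, lG, ld, la⟩ :=
      hn₁ w.length (by omega) r s b a b1 b2 b3
    have hbs : bsW (num w) = 4 * w.length + 8 := by
      unfold bsW
      rw [hlog]
    obtain ⟨v, hv⟩ : ∃ v : ℕ → ℕ, v = fun i => if i = 0 then s else if i = 1 then b else
      if i = 2 then c' else if i = 3 then R else if i = 4 then E' else if i = 5 then G else
      if i = 6 then d else a := ⟨_, rfl⟩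
    have hvlt : ∀ i < 8, v i < 4 * w.length + 8 := by
      intro i _
      rw [hv]
      show (if i = 0 then s else if i = 1 then b else
        if i = 2 then c' else if i = 3 then R else if i = 4 then E' else if i = 5 then G else
        if i = 6 then d else a) < _
      split_ifs <;> assumption
    obtain ⟨T, hT⟩ : ∃ T, T = tab (4 * w.length + 8) 8 v := ⟨_, rfl⟩
    have hdig : ∀ i < 8, dig (bsW (num w)) T i = v i := by
      intro i hi
      rw [hbs, hT]
      exact dig_tab hvlt hi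
    have d0 : dig (bsW (num w)) T 0 = s := (hdig 0 (by omega)).trans (by rw [hv]; rfl)
    have d1 : dig (bsW (num w)) T 1 = b := (hdig 1 (by omega)).trans (by rw [hv]; rfl)
    have d2 : dig (bsW (num w)) T 2 = c' := (hdig 2 (by omega)).trans (by rw [hv]; rfl)
    have d3 : dig (bsW (num w)) T 3 = R := (hdig 3 (by omega)).trans (by rw [hv]; rfl)
    have d4 : dig (bsW (num w)) T 4 = E' := (hdig 4 (by omega)).trans (by rw [hv]; rfl)
    have d5 : dig (bsW (num w)) T 5 = G := (hdig 5 (by omega)).trans (by rw [hv]; rfl)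
    have d6 : dig (bsW (num w)) T 6 = d := (hdig 6 (by omega)).trans (by rw [hv]; rfl)
    have d7 : dig (bsW (num w)) T 7 = a := (hdig 7 (by omega)).trans (by rw [hv]; rfl)
    have hg : gT u (num w) T ≠ 0 := by
      unfold gT
      rw [d0, d1, d2, d3, d4, d5, d6, d7, u0, u1, hlog]
      exact hgw
    obtain ⟨h1, h2, h3⟩ := hready T hg
    have H := hguw T
    obtain ⟨e0, e1, e2, e3, e4, e5, e6, e7, e8, e9⟩ := H.eq hg
    rw [d0] at e2
    rw [d1] at e3
    rw [d2] at e4
    rw [d3] at e5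
    rw [d6] at e8
    rw [d7] at e9
    refine ⟨T, ?_, ?_⟩
    · unfold NBW
      rw [hbs, hT]
      exact tab_lt hvlt
    · unfold accW
      refine mul_ne_zero hg ?_
      refine hR.cmp A E eA eN eW c0 w y _ _ _ hK h1 h2 h3 H.pos.2.1 (hfok T) H.hN t b r e3 hacc
        (by rw [e2]; exact hfit) hbox ?_ ?_
      · rw [e9, hlog]
        exact hwin
      · show r ≤ (PT u (num w) (num y) T).d *
          ((PT u (num w) (num y) T).m.R * (PT u (num w) (num y) T).m.c)
        rw [e8, e5, e4]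
        exact hrd

end Pool.Agent.Helper32.MHS
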